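import Mathlib
import Pool.Agent.H162R2.AG.Stmts

/-! Task G1a of h162 (helper551): a lower bound for the upper tail of the binomial distribution. -/

set_option autoImplicit false

namespace Pool.Agent.H162R2.AG

open Finset

theorem G1a_central (k : ℕ) (hk : 1 ≤ k) : 16 ^ k ≤ 4 * k * (Nat.centralBinom k) ^ 2 := by
  induction k, hk using Nat.le_induction with
  | base => simp [Nat.centralBinom, Nat.choose]
  | succ k hk ih =>
    have h1 := Nat.succ_mul_centralBinom_succ k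
    have h2 : (k + 1) * 16 ^ (k + 1) ≤ (k + 1) * (4 * (k + 1) * (Nat.centralBinom (k + 1)) ^ 2) := by
      calc (k + 1) * 16 ^ (k + 1) = 16 * (k + 1) * 16 ^ k := by ring
        _ ≤ 16 * (k + 1) * (4 * k * (Nat.centralBinom k) ^ 2) := Nat.mul_le_mul_left _ ih
        _ = (16 * (Nat.centralBinom k) ^ 2) * (4 * k * (k + 1)) := by ring
        _ ≤ (16 * (Nat.centralBinom k) ^ 2) * (2 * k + 1) ^ 2 :=
            Nat.mul_le_mul_left _ (by nlinarith)
        _ = 4 * (2 * (2 * k + 1) * Nat.centralBinom k) ^ 2 := by ring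
        _ = 4 * ((k + 1) * Nat.centralBinom (k + 1)) ^ 2 := by rw [h1]
        _ = (k + 1) * (4 * (k + 1) * (Nat.centralBinom (k + 1)) ^ 2) := by ring
    exact Nat.le_of_mul_le_mul_left h2 (Nat.succ_pos k)

theorem G1a_mid_nat (m : ℕ) (hm : 1 ≤ m) : 4 ^ m ≤ (Nat.choose m (m / 2)) ^ 2 * (4 * m) := by
  rcases Nat.even_or_odd' m with ⟨M, rfl | rfl⟩
  · have hM : 1 ≤ M := by omega
    have h1 := G1a_central M hM
    have h2 : 2 * M / 2 = M := by omega
    rw [h2, pow_mul]
    have h3 : Nat.choose (2 * M) M = Nat.centralBinom M := rfl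
    rw [h3]
    norm_num
    nlinarith
  · have h1 := G1a_central (M + 1) (by omega)
    have h2 : (2 * M + 1) / 2 = M := by omega
    rw [h2]
    have h3 : Nat.centralBinom (M + 1) = 2 * Nat.choose (2 * M + 1) M := by
      have : Nat.centralBinom (M + 1) = Nat.choose (2 * M + 1 + 1) (M + 1) := by
        rw [Nat.centralBinom]
        congr 1
      rw [this, Nat.choose_succ_succ, Nat.succ_eq_add_one, Nat.choose_symm_half]
      ring
    rw [h3] at h1
    have h4 : (4 : ℕ) ^ (2 * M + 1) = 4 * 16 ^ M := by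
      rw [pow_succ, pow_mul]
      norm_num
      ring
    rw [h4]
    rw [pow_succ] at h1
    nlinarith

theorem G1a_mid (m : ℕ) (hm : 1 ≤ m) :
    (2 : ℝ) ^ m ≤ (Nat.choose m (m / 2) : ℝ) * (2 * Real.sqrt m) := by
  have h1 : ((4 : ℝ)) ^ m ≤ (Nat.choose m (m / 2) : ℝ) ^ 2 * (4 * m) := by
    exact_mod_cast G1a_mid_nat m hm
  refine le_of_sq_le_sq ?_ (by positivity)
  have h2 : ((2 : ℝ) ^ m) ^ 2 = 4 ^ m := by
    rw [← pow_mul, mul_comm, pow_mul]
    norm_num
  rw [h2, mul_pow, mul_pow, Real.sq_sqrt (by positivity)]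
  norm_num
  exact h1

theorem G1a_exp {x : ℝ} (h0 : 0 ≤ x) (h1 : x ≤ 1 / 2) : Real.exp (-(x + x ^ 2)) ≤ 1 - x := by
  have h2 := Real.quadratic_le_exp_of_nonneg (x := x + x ^ 2) (by positivity)
  rw [Real.exp_neg, inv_le_comm₀ (Real.exp_pos _) (by linarith)]
  refine le_trans ?_ h2
  rw [inv_le_iff_one_le_mul₀ (by linarith)]
  have h3 : 0 ≤ 1 - x - x ^ 2 - x ^ 3 := by nlinarith [sq_nonneg x, mul_nonneg h0 h0]
  nlinarith [mul_nonneg (mul_nonneg h0 h0) h3]

theorem G1a_anti (m k : ℕ) (hk : m ≤ 2 * k + 1) : Nat.choose m (k + 1) ≤ Nat.choose m k := by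
  have h1 := Nat.choose_succ_right_eq m k
  have h2 : m - k ≤ k + 1 := by omega
  have h3 : Nat.choose m (k + 1) * (k + 1) ≤ Nat.choose m k * (k + 1) := by
    rw [h1]
    exact Nat.mul_le_mul_left _ h2
  exact Nat.le_of_mul_le_mul_right h3 (Nat.succ_pos k)

theorem G1a_anti' (m k j : ℕ) (hk : m ≤ 2 * k + 1) : Nat.choose m (k + j) ≤ Nat.choose m k := by
  induction j with
  | zero => exact le_refl _
  | succ j ih => exact (G1a_anti m (k + j) (by omega)).trans ih

/-- lower bound for the binomial coefficients near the middle -/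
theorem G1a_ratio (m J : ℕ) (hM : 0 < m / 2) (hJ : 4 * J ≤ m / 2) (j : ℕ) (hj : j ≤ J) :
    (Nat.choose m (m / 2) : ℝ) *
      Real.exp (-((j : ℝ) ^ 2 / (m / 2 : ℕ) + j * (2 * J / (m / 2 : ℕ)) ^ 2)) ≤
      (Nat.choose m (m / 2 + j) : ℝ) := by
  set M := m / 2 with hMdef
  have hM' : (0 : ℝ) < M := by exact_mod_cast hM
  have hJ' : (4 : ℝ) * J ≤ M := by exact_mod_cast hJ
  induction j with
  | zero => simp
  | succ j ih =>
    have hj' : (j : ℝ) + 1 ≤ J := by exact_mod_cast hj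
    have ih := ih (by omega)
    set x : ℝ := (2 * j + 1) / M with hx
    have hx0 : 0 ≤ x := by positivity
    have hxJ : x ≤ 2 * J / M := by
      rw [hx]
      gcongr
      linarith
    have hx1 : x ≤ 1 / 2 := by
      refine hxJ.trans ?_
      rw [div_le_iff₀ hM']
      linarith
    have h1 : (Nat.choose m (M + (j + 1)) : ℝ) * (M + j + 1) =
        (Nat.choose m (M + j) : ℝ) * ((m : ℝ) - (M + j)) := by
      have h2 := Nat.choose_succ_right_eq m (M + j)
      have h3 : M + j ≤ m := by omega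
      have h4 : ((Nat.choose m (M + j + 1) * (M + j + 1) : ℕ) : ℝ) =
          ((Nat.choose m (M + j) * (m - (M + j)) : ℕ) : ℝ) := by rw [h2]
      push_cast [Nat.cast_sub h3] at h4
      rw [← add_assoc]
      linarith
    have hm2 : (2 : ℝ) * M ≤ m := by
      have : 2 * M ≤ m := by omega
      exact_mod_cast this
    have h5 : (1 - x) * (M + j + 1) ≤ (m : ℝ) - (M + j) := by
      have h6 : x * (M + j + 1) ≥ 2 * j + 1 := by
        have : x * M = 2 * j + 1 := by rw [hx]; field_simp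
        nlinarith
      nlinarith
    have hpos : (0 : ℝ) < M + j + 1 := by positivity
    have h7 : (Nat.choose m (M + j) : ℝ) * (1 - x) ≤ (Nat.choose m (M + (j + 1)) : ℝ) := by
      refine le_of_mul_le_mul_right ?_ hpos
      rw [h1, mul_assoc]
      exact mul_le_mul_of_nonneg_left h5 (by positivity)
    refine le_trans ?_ h7
    have h8 : Real.exp (-(((j + 1 : ℕ) : ℝ) ^ 2 / M + ((j + 1 : ℕ) : ℝ) * (2 * J / M) ^ 2)) ≤
        Real.exp (-((j : ℝ) ^ 2 / M + j * (2 * J / M) ^ 2)) * Real.exp (-(x + x ^ 2)) := by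
      rw [← Real.exp_add]
      apply Real.exp_le_exp.mpr
      have h9 : x ^ 2 ≤ (2 * J / M) ^ 2 := by gcongr
      have h10 : (((j + 1 : ℕ) : ℝ)) ^ 2 / M = (j : ℝ) ^ 2 / M + x := by
        rw [hx]
        push_cast
        field_simp
        ring
      rw [h10]
      push_cast
      linarith
    calc (Nat.choose m M : ℝ) * Real.exp (-(((j + 1 : ℕ) : ℝ) ^ 2 / M +
          ((j + 1 : ℕ) : ℝ) * (2 * J / M) ^ 2))
        ≤ (Nat.choose m M : ℝ) * (Real.exp (-((j : ℝ) ^ 2 / M + j * (2 * J / M) ^ 2)) *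
            Real.exp (-(x + x ^ 2))) := mul_le_mul_of_nonneg_left h8 (by positivity)
      _ = ((Nat.choose m M : ℝ) * Real.exp (-((j : ℝ) ^ 2 / M + j * (2 * J / M) ^ 2))) *
            Real.exp (-(x + x ^ 2)) := by ring
      _ ≤ (Nat.choose m (M + j) : ℝ) * (1 - x) :=
          mul_le_mul ih (G1a_exp hx0 hx1) (Real.exp_pos _).le (by positivity)

/-- the count contains whole levels -/
theorem G1a_count (m j₀ r : ℕ) (t : ℝ) (h : t ≤ ((m / 2 + j₀ : ℕ) : ℝ)) :
    ((r + 1 : ℕ) : ℝ) * (Nat.choose m (m / 2 + (j₀ + r)) : ℝ) ≤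
      cnt (fun s : Finset (Fin m) => t ≤ s.card) := by
  classical
  rw [cnt_eq_card]
  have h1 : (Finset.range (r + 1)).biUnion (fun i => Finset.powersetCard (m / 2 + (j₀ + i))
      (univ : Finset (Fin m))) ⊆ univ.filter (fun s : Finset (Fin m) => t ≤ s.card) := by
    intro s hs
    rw [Finset.mem_biUnion] at hs
    obtain ⟨i, hi, hs⟩ := hs
    rw [Finset.mem_powersetCard] at hs
    rw [Finset.mem_filter]
    refine ⟨Finset.mem_univ _, h.trans ?_⟩
    rw [hs.2]
    exact_mod_cast (by omega : m / 2 + j₀ ≤ m / 2 + (j₀ + i))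
  have h2 := Finset.card_le_card h1
  rw [Finset.card_biUnion] at h2
  · have h3 : (r + 1) * Nat.choose m (m / 2 + (j₀ + r)) ≤
        ∑ i ∈ Finset.range (r + 1), (Finset.powersetCard (m / 2 + (j₀ + i))
          (univ : Finset (Fin m))).card := by
      rw [← Finset.card_range (r + 1), ← smul_eq_mul, Finset.card_range]
      nth_rewrite 1 [← Finset.card_range (r + 1)]
      refine Finset.card_nsmul_le_sum _ _ _ fun i hi => ?_
      rw [Finset.card_powersetCard, Finset.card_univ, Fintype.card_fin]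
      have hi' : i ≤ r := Nat.lt_succ_iff.mp (Finset.mem_range.mp hi)
      have h4 := G1a_anti' m (m / 2 + (j₀ + i)) (r - i) (by omega)
      have h5 : m / 2 + (j₀ + i) + (r - i) = m / 2 + (j₀ + r) := by omega
      rwa [h5] at h4
    exact_mod_cast h3.trans h2
  · intro i _ i' _ hne
    rw [Function.onFun, Finset.disjoint_left]
    intro s hs hs'
    rw [Finset.mem_powersetCard] at hs hs'
    apply hne
    have := hs.2.symm.trans hs'.2
    omega

theorem G1a : T_G1a := by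
  have e1 : ∀ᶠ m : ℕ in Filter.atTop, (90000 : ℝ) ≤ Real.log m :=
    (Real.tendsto_log_atTop.comp tendsto_natCast_atTop_atTop).eventually_ge_atTop _
  have e2 : ∀ᶠ m : ℕ in Filter.atTop, ‖Real.log (m : ℝ)‖ ≤ (1 / 3600 : ℝ) * ‖(m : ℝ)‖ :=
    tendsto_natCast_atTop_atTop.eventually
      (Real.isLittleO_log_id_atTop.def (by norm_num : (0 : ℝ) < 1 / 3600))
  obtain ⟨m₀, hm₀⟩ := Filter.eventually_atTop.mp (e1.and e2)
  refine ⟨max m₀ 50, fun m hm => ?_⟩
  obtain ⟨hlog, hlog2⟩ := hm₀ m ((le_max_left _ _).trans hm)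
  have hm50 : 50 ≤ m := (le_max_right _ _).trans hm
  have hmR : (50 : ℝ) ≤ m := by exact_mod_cast hm50
  rw [Real.norm_of_nonneg (by linarith), Real.norm_of_nonneg (by linarith)] at hlog2
  set s := Real.sqrt m with hs
  have hs0 : 0 ≤ s := Real.sqrt_nonneg _
  have hss : s * s = m := Real.mul_self_sqrt (by linarith)
  have hs1 : 1 ≤ s := by
    rw [hs, Real.one_le_sqrt]
    linarith
  set L := Lam m with hL
  have hL0 : 0 ≤ L := Real.sqrt_nonneg _
  have hLL : L * L = m * Real.log m := Real.mul_self_sqrt (by positivity)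
  have hLs : 300 * s ≤ L := by
    refine le_of_sq_le_sq ?_ hL0
    have : (300 * s) ^ 2 = 90000 * m := by
      rw [mul_pow, sq s, hss]
      norm_num
    rw [this, sq L, hLL]
    nlinarith
  have hLm : L ≤ m / 60 := by
    refine le_of_sq_le_sq ?_ (by positivity)
    rw [sq L, hLL]
    have : (m / 60 : ℝ) ^ 2 = m * (m / 3600) := by ring
    rw [this]
    exact mul_le_mul_of_nonneg_left (by linarith) (by linarith)
  set M := m / 2 with hM
  have hM1 : (m : ℝ) / 2 - 1 / 2 ≤ M := by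
    have : m ≤ 2 * M + 1 := by omega
    have : (m : ℝ) ≤ 2 * M + 1 := by exact_mod_cast this
    linarith
  have hM2 : 0.49 * (m : ℝ) ≤ M := by linarith
  have hMpos : (0 : ℝ) < M := by linarith
  set j₀ := ⌈(61 / 100 : ℝ) * L⌉₊ + 1 with hj₀
  set r := Nat.sqrt m with hr
  have hj1 : (61 / 100 : ℝ) * L + 1 ≤ j₀ := by
    rw [hj₀]
    push_cast
    have := Nat.le_ceil ((61 / 100 : ℝ) * L)
    linarith
  have hj2 : (j₀ : ℝ) ≤ (61 / 100 : ℝ) * L + 2 := by
    rw [hj₀]
    push_cast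
    have := (Nat.ceil_lt_add_one (a := (61 / 100 : ℝ) * L) (by positivity)).le
    linarith
  have hr1 : (r : ℝ) ≤ s := by
    rw [hr, hs]
    exact Real.nat_sqrt_le_real_sqrt
  have hr2 : s ≤ ((r + 1 : ℕ) : ℝ) := by
    push_cast
    rw [hr, hs]
    exact Real.real_sqrt_le_nat_sqrt_succ
  have hJ : ((j₀ + r : ℕ) : ℝ) ≤ 0.62 * L := by
    push_cast
    linarith
  have h4J : 4 * (j₀ + r) ≤ M := by
    have : (4 : ℝ) * ((j₀ + r : ℕ) : ℝ) ≤ M := by linarith
    exact_mod_cast this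
  have hcount := G1a_count m j₀ r ((m : ℝ) / 2 + 61 / 100 * L) (by push_cast; linarith)
  have hratio := G1a_ratio m (j₀ + r) (by omega) h4J (j₀ + r) le_rfl
  refine le_trans ?_ hcount
  have hmid := G1a_mid m (by omega)
  set C := (Nat.choose m M : ℝ) with hC
  set J : ℝ := ((j₀ + r : ℕ) : ℝ) with hJdef
  have hJ0 : 0 ≤ J := by positivity
  have hlogpos : 0 < Real.log m := by linarith
  -- the exponent
  have hJ2 : J ^ 2 / M ≤ 0.785 * Real.log m := by
    rw [div_le_iff₀ hMpos]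
    have h1 : J ^ 2 ≤ (0.62 * L) ^ 2 := pow_le_pow_left₀ hJ0 hJ 2
    have h2 : (0.62 * L) ^ 2 = 0.3844 * (m * Real.log m) := by
      rw [mul_pow, sq L, hLL]
      norm_num
    have h3 : 0.785 * Real.log m * (0.49 * m) ≤ 0.785 * Real.log m * M :=
      mul_le_mul_of_nonneg_left hM2 (by positivity)
    have h4 : 0 ≤ (m : ℝ) * Real.log m := by positivity
    nlinarith
  have hJ3 : J * (2 * J / M) ^ 2 ≤ 0.08 * Real.log m := by
    have h1 : J * (2 * J / M) ^ 2 = (J ^ 2 / M) * (4 * J / M) := by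
      field_simp
      ring
    rw [h1]
    have h2 : 4 * J / M ≤ 0.1 := by
      rw [div_le_iff₀ hMpos]
      linarith
    calc (J ^ 2 / M) * (4 * J / M) ≤ (0.785 * Real.log m) * 0.1 :=
          mul_le_mul hJ2 h2 (by positivity) (by positivity)
      _ ≤ 0.08 * Real.log m := by linarith
  have hlog2' : Real.log 2 ≤ 0.03 * Real.log m := by
    have := Real.log_two_lt_d9
    linarith
  have hexp : (m : ℝ) ^ (-(9 / 10) : ℝ) * 2 ≤ Real.exp (-(J ^ 2 / M + J * (2 * J / M) ^ 2)) := by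
    have h2e : (2 : ℝ) = Real.exp (Real.log 2) := (Real.exp_log (by norm_num)).symm
    have hE : ∀ E : ℝ, E ≤ (0.785 + 0.08) * Real.log m →
        (m : ℝ) ^ (-(9 / 10) : ℝ) * 2 ≤ Real.exp (-E) := by
      intro E hE
      rw [Real.rpow_def_of_pos (by linarith), h2e, ← Real.exp_add]
      apply Real.exp_le_exp.mpr
      linarith
    exact hE _ (by linarith)
  have hrp : (0 : ℝ) ≤ (m : ℝ) ^ (-(9 / 10) : ℝ) := Real.rpow_nonneg (by linarith) _
  have hC0 : 0 ≤ C := by positivity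
  calc (m : ℝ) ^ (-(9 / 10) : ℝ) * 2 ^ m
      ≤ (m : ℝ) ^ (-(9 / 10) : ℝ) * (C * (2 * s)) := mul_le_mul_of_nonneg_left hmid hrp
    _ = s * (C * ((m : ℝ) ^ (-(9 / 10) : ℝ) * 2)) := by ring
    _ ≤ s * (C * Real.exp (-(J ^ 2 / M + J * (2 * J / M) ^ 2))) :=
        mul_le_mul_of_nonneg_left (mul_le_mul_of_nonneg_left hexp hC0) hs0
    _ ≤ ((r + 1 : ℕ) : ℝ) * (Nat.choose m (M + (j₀ + r)) : ℝ) :=
        mul_le_mul hr2 hratio (by positivity) (by positivity)

end Pool.Agent.H162R2.AG
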